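import Pool.Agent.L7h71.FP.Stm2

set_option autoImplicit false

/-!
Project DU, part EQV: groups without infinite coinfinite invariant sets over finite sets, which are
not open, preserve an equivalence relation over a finite set.
-/

namespace Pool.Agent.L7h23.DU

open Set Filter
open Pool.Agent.L7h71.FP

/-- an infinite set of natural numbers splits into two infinite sets -/
theorem split_inf {R : Set ℕ} (hR : R.Infinite) : ∃ B : Set ℕ, B ⊆ R ∧ B.Infinite ∧
    (R \ B).Infinite := by
  haveI : Infinite R := hR.to_subtype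
  obtain ⟨_⟩ := nonempty_denumerable R
  let κ : R ≃ ℕ := Denumerable.eqv R
  have hinj : Function.Injective fun n : ℕ => ((κ.symm n : R) : ℕ) :=
    Subtype.val_injective.comp κ.symm.injective
  refine ⟨range fun n : ℕ => ((κ.symm (2 * n) : R) : ℕ), ?_, ?_, ?_⟩
  · rintro _ ⟨n, rfl⟩
    exact (κ.symm (2 * n)).2
  · exact Set.infinite_range_of_injective (f := fun n : ℕ => ((κ.symm (2 * n) : R) : ℕ))
      (fun a b h => by have := hinj h; omega)
  · have h1 : (range fun n : ℕ => ((κ.symm (2 * n + 1) : R) : ℕ)).Infinite :=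
      Set.infinite_range_of_injective (f := fun n : ℕ => ((κ.symm (2 * n + 1) : R) : ℕ))
        (fun a b h => by have := hinj h; omega)
    refine h1.mono ?_
    rintro _ ⟨n, rfl⟩
    refine ⟨(κ.symm (2 * n + 1)).2, ?_⟩
    rintro ⟨k, hk⟩
    have := hinj hk
    omega

section

variable {K : PG}

theorem inv_sets (hM : ¬ Moi K) {F : Set ℕ} (hF : F.Finite) {A : Set ℕ}
    (hA : ∀ k ∈ st K F, ∀ n, k n ∈ A ↔ n ∈ A) : A.Finite ∨ Aᶜ.Finite := by
  by_contra h
  push Not at h
  exact hM ⟨F, hF, A, h.1, h.2, hA⟩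

theorem orbit_inv {G : PG} (x : ℕ) : ∀ k ∈ G, ∀ n, k n ∈ O G x ↔ n ∈ O G x := by
  intro k hk n
  have h1 : k n ∈ O G n := ⟨k, hk, rfl⟩
  constructor
  · intro h
    exact O_trans h (O_symm h1)
  · intro h
    exact O_trans h h1

/-- the orbits of the points outside the closure are cofinite -/
theorem orbit_cofinite (hM : ¬ Moi K) {F : Set ℕ} (hF : F.Finite) {x : ℕ} (hx : x ∉ acl K F) :
    (O (st K F) x)ᶜ.Finite :=
  (inv_sets hM hF (orbit_inv x)).resolve_left hx

/-- not all orbits are finite -/
theorem exists_notMem_acl (hM : ¬ Moi K) {F : Set ℕ} (hF : F.Finite) : ∃ x, x ∉ acl K F := by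
  by_contra hcon
  push Not at hcon
  let μ : ℕ → ℕ := fun x => sInf (O (st K F) x)
  have hμ : ∀ x, μ x ∈ O (st K F) x := fun x => Nat.sInf_mem ⟨x, O_refl _ x⟩
  have hinv : ∀ k ∈ st K F, ∀ n, μ (k n) = μ n := by
    intro k hk n
    have h1 : k n ∈ O (st K F) n := ⟨k, hk, rfl⟩
    show sInf _ = sInf _
    rw [O_eq h1]
  have hR : (range μ).Infinite := by
    intro hfin
    apply Set.infinite_univ (α := ℕ)
    refine Set.Finite.subset (Set.Finite.biUnion hfin (t := fun y => O (st K F) y)
      fun y _ => hcon y) ?_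
    intro x _
    exact Set.mem_biUnion (x := μ x) ⟨x, rfl⟩ (O_symm (hμ x))
  obtain ⟨B, hB, hB1, hB2⟩ := split_inf hR
  have h2 := inv_sets hM hF (A := {x | μ x ∈ B}) (fun k hk n => by
    show μ (k n) ∈ B ↔ μ n ∈ B
    rw [hinv k hk n])
  have key : ∀ D : Set ℕ, D ⊆ range μ → D.Infinite → {x | μ x ∈ D}.Infinite := by
    intro D hD hDi hfin
    apply hDi
    refine Set.Finite.subset (hfin.image μ) ?_
    intro d hd
    obtain ⟨x, rfl⟩ := hD hd
    exact ⟨x, hd, rfl⟩
  rcases h2 with h2 | h2
  · exact key B hB hB1 h2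
  · apply key (range μ \ B) diff_subset hB2
    refine h2.subset ?_
    intro x hx
    exact hx.2

/-- the closure of a finite set is finite -/
theorem acl_fin (hM : ¬ Moi K) {F : Set ℕ} (hF : F.Finite) : (acl K F).Finite := by
  obtain ⟨x, hx⟩ := exists_notMem_acl hM hF
  refine (orbit_cofinite hM hF hx).subset ?_
  intro y hy hyx
  apply hx
  have h1 : (O (st K F) y).Finite := hy
  rw [O_eq hyx] at h1
  exact h1

/-- the stabiliser is transitive outside the closure -/
theorem transitive (hM : ¬ Moi K) {F : Set ℕ} (hF : F.Finite) {x y : ℕ} (hx : x ∉ acl K F)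
    (hy : y ∉ acl K F) : ∃ k ∈ st K F, k x = y := by
  have h1 := orbit_cofinite hM hF hx
  have h2 := orbit_cofinite hM hF hy
  have h3 : (O (st K F) x ∩ O (st K F) y).Nonempty := by
    by_contra h
    rw [Set.not_nonempty_iff_eq_empty] at h
    apply Set.infinite_univ (α := ℕ)
    have h4 : (univ : Set ℕ) = (O (st K F) x)ᶜ ∪ (O (st K F) y)ᶜ := by
      rw [← Set.compl_inter, h, Set.compl_empty]
    rw [h4]
    exact h1.union h2
  obtain ⟨z, hz1, hz2⟩ := h3
  exact O_trans hz1 (O_symm hz2)

theorem oli (hM : ¬ Moi K) : Oli K := by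
  intro F hF
  obtain ⟨x, hx⟩ := exists_notMem_acl hM hF
  have h1 : {X | ∃ y, X = O (st K F) y} ⊆
      insert (O (st K F) x) ((fun y => O (st K F) y) '' acl K F) := by
    rintro _ ⟨y, rfl⟩
    by_cases hy : y ∈ acl K F
    · exact Or.inr ⟨y, hy, rfl⟩
    · left
      obtain ⟨k, hk, hk'⟩ := transitive hM hF hx hy
      exact O_eq ⟨k, hk, hk'⟩
  exact Set.Finite.subset (((acl_fin hM hF).image _).insert _) h1

/-- there is a closed finite set over which the closure is not trivial -/
theorem exists_nontriv (hK : Clo K) (hM : ¬ Moi K) (hO : ¬ Opn K) : ∃ C : Set ℕ, C.Finite ∧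
    acl K C = C ∧ ∃ x, x ∉ C ∧ acl K (insert x C) ≠ insert x C := by
  by_contra hcon
  push Not at hcon
  apply hO
  have hfin := acl_fin hM (F := ∅) Set.finite_empty
  have haa : acl K (acl K ∅) = acl K ∅ := acl_acl (oli hM) Set.finite_empty
  -- all finite sets are closed
  have hcl : ∀ s : Finset ℕ, acl K (acl K ∅ ∪ ↑s) = acl K ∅ ∪ ↑s := by
    intro s
    induction s using Finset.induction_on with
    | empty => simpa using haa
    | insert a s ha ih =>
      by_cases ha' : a ∈ acl K ∅ ∪ (↑s : Set ℕ)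
      · rw [Finset.coe_insert, Set.union_insert, Set.insert_eq_of_mem ha']
        exact ih
      · have := hcon (acl K ∅ ∪ ↑s) (hfin.union s.finite_toSet) ih a ha'
        rw [Finset.coe_insert, Set.union_insert]
        exact this
  refine ⟨acl K ∅, hfin, fun σ hσ => hK σ ?_⟩
  have key : ∀ s : Finset ℕ, ∃ h ∈ K, ∀ i ∈ acl K ∅ ∪ (↑s : Set ℕ), h i = σ i := by
    intro s
    induction s using Finset.induction_on with
    | empty =>
      refine ⟨1, K.one_mem, fun i hi => ?_⟩
      have hi' : i ∈ acl K ∅ := by simpa using hi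
      rw [hσ i hi']
      rfl
    | insert a s ha ih =>
      obtain ⟨h, hh, hhi⟩ := ih
      by_cases ha' : a ∈ acl K ∅ ∪ (↑s : Set ℕ)
      · refine ⟨h, hh, fun i hi => hhi i ?_⟩
        rw [Finset.coe_insert, Set.union_insert, Set.insert_eq_of_mem ha'] at hi
        exact hi
      · have hb : h⁻¹ (σ a) ∉ acl K ∅ ∪ (↑s : Set ℕ) := by
          intro hb
          have h1 := hhi _ hb
          have h2 : h (h⁻¹ (σ a)) = σ a := by simp
          rw [h2] at h1
          have h3 := σ.injective h1
          rw [← h3] at hb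
          exact ha' hb
        have hfs : (acl K ∅ ∪ (↑s : Set ℕ)).Finite := hfin.union s.finite_toSet
        obtain ⟨t, ht, ht'⟩ := transitive hM hfs (x := a) (y := h⁻¹ (σ a))
          (by rw [hcl s]; exact ha') (by rw [hcl s]; exact hb)
        refine ⟨h * t, K.mul_mem hh ht.1, ?_⟩
        intro i hi
        rw [Finset.coe_insert, Set.union_insert] at hi
        rcases hi with rfl | hi
        · rw [Equiv.Perm.mul_apply, ht']
          simp
        · rw [Equiv.Perm.mul_apply, ht.2 i hi]
          exact hhi i hi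
  intro s
  obtain ⟨h, hh, hhi⟩ := key s
  exact ⟨h, hh, fun i hi => hhi i (Or.inr hi)⟩

end

theorem s_eqv : S_STD → S_EQV := by
  classical
  intro hstd K hK hM hO
  obtain ⟨C, hC, haC, x0, hx0, hne⟩ := exists_nontriv hK hM hO
  have holi := oli hM
  let cell : ℕ → Set ℕ := fun x => acl K (insert x C) \ C
  have hself : ∀ x, x ∉ C → x ∈ cell x := fun x hx =>
    ⟨subset_acl K _ (Set.mem_insert _ _), hx⟩
  have hfin : ∀ x, (cell x).Finite := fun x =>
    (acl_fin hM (hC.insert x)).subset diff_subset
  have himC : ∀ k ∈ st K C, k '' C = C := by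
    intro k hk
    ext y
    constructor
    · rintro ⟨z, hz, rfl⟩
      rw [hk.2 z hz]; exact hz
    · intro hy
      exact ⟨y, hy, hk.2 y hy⟩
  have hconj : ∀ k ∈ st K C, ∀ x, k '' cell x = cell (k x) := by
    intro k hk x
    show k '' (acl K (insert x C) \ C) = acl K (insert (k x) C) \ C
    rw [Set.image_sdiff k.injective, himC k hk, acl_conj hk.1, Set.image_insert_eq, himC k hk]
  have hsize : ∀ x, x ∉ C → (cell x).ncard = (cell x0).ncard := by
    intro x hx
    obtain ⟨k, hk, hkx⟩ := transitive hM hC (x := x0) (y := x) (by rw [haC]; exact hx0)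
      (by rw [haC]; exact hx)
    rw [← hkx, ← hconj k hk, Set.ncard_image_of_injective _ k.injective]
  have hsub : ∀ x y, y ∈ cell x → cell y ⊆ cell x := by
    intro x y hy z hz
    refine ⟨?_, hz.2⟩
    have h1 : insert y C ⊆ acl K (insert x C) := by
      intro w hw
      rcases hw with rfl | hw
      · exact hy.1
      · exact subset_acl K _ (Set.mem_insert_of_mem _ hw)
    have h2 := acl_mono K h1
    rw [acl_acl holi (hC.insert x)] at h2
    exact h2 hz.1
  have heq : ∀ x, x ∉ C → ∀ y ∈ cell x, cell y = cell x := by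
    intro x hx y hy
    refine Set.eq_of_subset_of_ncard_le (hsub x y hy) ?_ (hfin x)
    rw [hsize x hx, hsize y hy.2]
  have hm : 2 ≤ (cell x0).ncard := by
    by_contra hlt
    push Not at hlt
    apply hne
    apply Set.Subset.antisymm ?_ (subset_acl K _)
    intro z hz
    by_cases hzC : z ∈ C
    · exact Set.mem_insert_of_mem _ hzC
    · have h1 : z ∈ cell x0 := ⟨hz, hzC⟩
      have h2 := (Set.ncard_le_one (hfin x0)).1 (by omega) z h1 x0 (hself x0 hx0)
      rw [h2]
      exact Set.mem_insert _ _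
  let e : ℕ → Set ℕ := fun x => if x ∈ C then {x} else cell x
  have e1 : ∀ x, x ∈ C → e x = {x} := fun x hx => if_pos hx
  have e2 : ∀ x, x ∉ C → e x = cell x := fun x hx => if_neg hx
  have eself : ∀ x, x ∈ e x := by
    intro x
    by_cases hx : x ∈ C
    · rw [e1 x hx]; rfl
    · rw [e2 x hx]; exact hself x hx
  have ecl : ∀ x, x ∉ C → {y | e y = e x} = cell x := by
    intro x hx
    ext y
    constructor
    · intro hy
      have h1 := eself y
      have h2 : e y = e x := hy
      rw [h2, e2 x hx] at h1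
      exact h1
    · intro hy
      show e y = e x
      rw [e2 y hy.2, e2 x hx]
      exact heq x hx y hy
  have hsing : {x : ℕ | ∀ y, e y = e x → y = x} = C := by
    ext x
    constructor
    · intro hx
      by_contra hxC
      have h1 : ∀ y ∈ cell x, y = x := by
        intro y hy
        rw [← ecl x hxC] at hy
        exact hx y hy
      have h2 : (cell x).ncard ≤ 1 := by
        rw [Set.ncard_le_one (hfin x)]
        intro a ha b hb
        rw [h1 a ha, h1 b hb]
      rw [hsize x hxC] at h2
      omega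
    · intro hx y hy
      have h1 := eself y
      rw [hy, e1 x hx] at h1
      exact h1
  obtain ⟨α, hα⟩ := hstd ℕ (Set ℕ) inferInstance inferInstance e C.ncard (cell x0).ncard hm
    (by rw [hsing]; exact hC) (by rw [hsing]) (by
      rintro x ⟨y, hy, hyx⟩
      have hxC : x ∉ C := by
        intro hxC
        have h1 : x ∈ {x : ℕ | ∀ y, e y = e x → y = x} := by rw [hsing]; exact hxC
        exact hyx (h1 y hy)
      rw [ecl x hxC]
      exact hsize x hxC)
  have hek : ∀ k ∈ st K C, ∀ x, e (k x) = k '' e x := by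
    intro k hk x
    by_cases hx : x ∈ C
    · rw [hk.2 x hx, e1 x hx, Set.image_singleton, hk.2 x hx]
    · have hkx : k x ∉ C := by
        intro h
        rw [← himC k hk] at h
        exact hx ((k.injective.mem_set_image).1 h)
      rw [e2 x hx, e2 _ hkx, hconj k hk]
  refine ⟨C, hC, C.ncard, (cell x0).ncard, hm, α, fun k hk => ?_⟩
  rw [mem_NE]
  intro x y
  have h1 : ∀ z, (α * k * α⁻¹) z = α (k (α⁻¹ z)) := fun z => rfl
  rw [h1, h1, hα, hek k hk, hek k hk, Set.image_eq_image k.injective, ← hα]
  have h2 : ∀ z, α (α⁻¹ z) = z := fun z => by simp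
  rw [h2, h2]

end Pool.Agent.L7h23.DU
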