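import Pool.Agent.L7h71.FP.Stm2

set_option autoImplicit false

/-!
Project DU, part LOC: a stabiliser of a finite set is the automorphism group of a structure which
lives on a locally finite graph.
-/

namespace Pool.Agent.L7h23.DU

open Set Filter
open Pool.Agent.L7h71.FP Pool.Agent.L7h73.FP.Orb
open Pool.Agent.L7h71.COV (Str Iso)

/-- local lists -/
def Lcl (G : PG) (D : Set ℕ) (L : List ℕ) : Prop :=
  (∃ x, x ∉ D ∧ ∀ y ∈ L, y ∈ C G D x) ∨ ∃ d ∈ D, ∀ y ∈ L, y = d

open Classical in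
/-- the structure -/
noncomputable def us (G : PG) (D : Set ℕ) : Str rr := fun i v =>
  decide (Lcl G D (ls i) ∧ ∃ g ∈ st G D, v = ⇑g ∘ (ls i).get)

theorem us_iff {G : PG} {D : Set ℕ} {i : ℕ} {v : Fin (rr i) → ℕ} :
    us G D i v = true ↔ Lcl G D (ls i) ∧ ∃ g ∈ st G D, v = ⇑g ∘ (ls i).get := by
  simp only [us, decide_eq_true_eq]

theorem us_list {G : PG} {D : Set ℕ} {σ : Equiv.Perm ℕ} (hσ : σ ∈ GrI univ (us G D))
    {L : List ℕ} (hL : Lcl G D L) : ∃ g ∈ st G D, ∀ y ∈ L, σ y = g y := by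
  obtain ⟨i, hi⟩ : ∃ i, ls i = L := ⟨ls.symm L, by simp⟩
  have h1 : us G D i (ls i).get = true := by
    rw [us_iff]
    exact ⟨by rw [hi]; exact hL, 1, (st G D).one_mem, rfl⟩
  have h2 : us G D i (⇑σ ∘ (ls i).get) = true := by
    rw [(mem_GrI.1 hσ) i (mem_univ i) _]
    exact h1
  rw [us_iff] at h2
  obtain ⟨-, g, hg, hgv⟩ := h2
  refine ⟨g, hg, fun y hy => ?_⟩
  rw [← hi] at hy
  obtain ⟨j, rfl⟩ := List.mem_iff_get.1 hy
  exact congrFun hgv j

theorem s_loc : S_LOC := by
  classical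
  intro G hc hN hE hT hS
  have hG : Oli G := hN.oli
  obtain ⟨D₀, hD₀, hst⟩ := hS
  have hSD : SD G (acl G D₀) := by
    intro F hF hDF x y hx hy hxy
    refine hst F hF.fin ((subset_acl G D₀).trans hDF) x y (by rwa [hF.cl]) (by rwa [hF.cl]) ?_
    exact O_mono (st_anti G (subset_acl G D₀)) x hxy
  obtain ⟨D, hD⟩ := exists_good hG (FC.acl hG hD₀) hSD
  have hfinC : ∀ x, (C G D x).Finite := fun x =>
    (acl_finite hG (Set.finite_singleton x)).subset diff_subset
  refine ⟨D, hD.fc.fin, us G D, ?_, ?_⟩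
  · let S : SimpleGraph ℕ :=
      { Adj := fun p q => p ≠ q ∧ p ∉ D ∧ q ∉ D ∧ C G D p = C G D q
        symm := ⟨fun p q h => ⟨h.1.symm, h.2.2.1, h.2.1, h.2.2.2.symm⟩⟩
        loopless := ⟨fun p h => h.1 rfl⟩ }
    refine ⟨S, fun p => ?_, ?_⟩
    · refine (hfinC p).subset ?_
      rintro q ⟨-, -, hq, h⟩
      rw [h]
      exact mem_C hq
    · intro i _ t ht j l
      rw [us_iff] at ht
      obtain ⟨hL, g, hg, rfl⟩ := ht
      rcases hL with ⟨x, hx, hxL⟩ | ⟨d, hd, hdL⟩
      · have hgx : g x ∉ D := by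
          intro h
          have h1 := hg.2 _ h
          have h2 : g x = x := g.injective h1
          rw [h2] at h
          exact hx h
        have key : ∀ j : Fin (rr i), g ((ls i).get j) ∈ C G D (g x) := fun j =>
          (C_conj hg x _).2 (hxL _ (List.get_mem _ _))
        by_cases hjl : g ((ls i).get j) = g ((ls i).get l)
        · exact Or.inl hjl
        · right
          refine ⟨hjl, (key j).2, (key l).2, ?_⟩
          show C G D (g ((ls i).get j)) = C G D (g ((ls i).get l))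
          rw [C_eq hG hE hT hD.fc hgx (key j), C_eq hG hE hT hD.fc hgx (key l)]
      · left
        show g ((ls i).get j) = g ((ls i).get l)
        rw [hdL _ (List.get_mem _ _), hdL _ (List.get_mem _ _)]
  · ext σ
    constructor
    · intro hσ
      have h1 : ∀ d ∈ D, σ d = d := by
        intro d hd
        obtain ⟨g, hg, hgy⟩ := us_list hσ (L := [d]) (Or.inr ⟨d, hd, by simp⟩)
        rw [hgy d (by simp), hg.2 d hd]
      refine ⟨mem_of_local hc hG hT hD h1 ?_, h1⟩
      intro x hx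
      obtain ⟨g, hg, hgy⟩ := us_list hσ (L := (hfinC x).toFinset.toList)
        (Or.inl ⟨x, hx, by simp⟩)
      refine ⟨g, hg, fun t ht => ?_⟩
      by_cases htD : t ∈ D
      · rw [hg.2 t htD, h1 t htD]
      · exact (hgy t (by simpa using ⟨ht, htD⟩)).symm
    · intro hσ
      rw [mem_GrI]
      intro i _ v
      have h1 : us G D i (⇑σ ∘ v) = true ↔ us G D i v = true := by
        rw [us_iff, us_iff]
        refine and_congr Iff.rfl ⟨?_, ?_⟩
        · rintro ⟨g, hg, hgv⟩
          refine ⟨σ⁻¹ * g, (st G D).mul_mem ((st G D).inv_mem hσ) hg, ?_⟩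
          funext j
          have h2 : σ (v j) = g ((ls i).get j) := congrFun hgv j
          show v j = σ⁻¹ (g ((ls i).get j))
          rw [← h2]
          simp
        · rintro ⟨g, hg, hgv⟩
          refine ⟨σ * g, (st G D).mul_mem hσ hg, ?_⟩
          rw [hgv]
          rfl
      exact Bool.eq_iff_iff.2 h1

end Pool.Agent.L7h23.DU
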