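import Pool.Agent.L7h71.FP.Stm2

set_option autoImplicit false

/-!
Project DU, part STD: normal form of an equivalence relation with classes of equal size.
-/

namespace Pool.Agent.L7h23.DU

open Set Filter
open Pool.Agent.L7h71.FP

theorem cls_lt {r m n : ℕ} (h : n < r) : cls r m n = n := by
  unfold cls; rw [if_pos h]

theorem cls_add {r m k j : ℕ} (hj : j < m) : cls r m (r + (k * m + j)) = r + k := by
  unfold cls
  rw [if_neg (by omega), Nat.add_sub_cancel_left]
  have hm : 0 < m := by omega
  rw [mul_comm, Nat.mul_add_div hm, Nat.div_eq_of_lt hj, Nat.add_zero]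

theorem s_std : S_STD := by
  classical
  intro Ω ι _ _ e r m hm hfin hr hcls
  obtain ⟨S, hS⟩ : ∃ S : Set Ω, S = {x : Ω | ∀ y, e y = e x → y = x} := ⟨_, rfl⟩
  rw [← hS] at hfin hr
  have hmem : ∀ x, x ∈ S ↔ ∀ y, e y = e x → y = x := fun x => by rw [hS]; rfl
  have hcl : ∀ x, x ∉ S → {y | e y = e x}.ncard = m := by
    intro x hx
    apply hcls
    rw [hmem] at hx
    push Not at hx
    exact hx
  have hclf : ∀ x, x ∉ S → {y | e y = e x}.Finite := fun x hx =>
    Set.finite_of_ncard_pos (by rw [hcl x hx]; omega)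
  haveI : Finite S := hfin
  let s : S ≃ Fin r := Finite.equivFinOfCardEq hr
  -- the set of the classes
  let Q : Set ι := e '' Sᶜ
  haveI : Countable Q := (Set.to_countable Sᶜ).image e
  have hQinf : Q.Infinite := by
    intro hQ
    have h1 : (Sᶜ : Set Ω) ⊆ ⋃ q ∈ Q, {y | y ∈ Sᶜ ∧ e y = q} := by
      intro x hx
      exact Set.mem_biUnion (x := e x) ⟨x, hx, rfl⟩ ⟨hx, rfl⟩
    have h2 : (Sᶜ : Set Ω).Finite := by
      refine Set.Finite.subset (Set.Finite.biUnion hQ ?_) h1
      rintro _ ⟨x, hx, rfl⟩
      exact (hclf x hx).subset fun y hy => hy.2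
    exact Set.infinite_univ (by
      rw [← Set.union_compl_self S]
      exact hfin.union h2)
  haveI : Infinite Q := hQinf.to_subtype
  obtain ⟨κ⟩ : Nonempty (Q ≃ ℕ) := by
    obtain ⟨_⟩ := nonempty_denumerable Q
    exact ⟨Denumerable.eqv Q⟩
  have hf : ∀ q : Q, ∃ f : Ω → ℕ, (∀ y, e y = q → f y < m) ∧
      (∀ y z, e y = q → e z = q → f y = f z → y = z) ∧ ∀ j < m, ∃ y, e y = q ∧ f y = j := by
    rintro ⟨_, x, hx, rfl⟩
    haveI : Finite {y | e y = e x} := hclf x hx
    let E : {y | e y = e x} ≃ Fin m := Finite.equivFinOfCardEq (hcl x hx)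
    refine ⟨fun y => if h : e y = e x then (E ⟨y, h⟩ : ℕ) else 0, ?_, ?_, ?_⟩
    · intro y hy
      simp only [dif_pos (show e y = e x from hy)]
      exact (E ⟨y, hy⟩).2
    · intro y z hy hz hyz
      simp only [dif_pos (show e y = e x from hy), dif_pos (show e z = e x from hz)] at hyz
      have := E.injective (Fin.ext hyz)
      exact congrArg Subtype.val this
    · intro j hj
      refine ⟨E.symm ⟨j, hj⟩, (E.symm ⟨j, hj⟩).2, ?_⟩
      simp only [dif_pos (show e (E.symm ⟨j, hj⟩ : Ω) = e x from (E.symm ⟨j, hj⟩).2)]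
      simp
  choose f hf1 hf2 hf3 using hf
  let qq : ∀ x, x ∉ S → Q := fun x hx => ⟨e x, x, hx, rfl⟩
  let a : Ω → ℕ := fun x => if hx : x ∈ S then (s ⟨x, hx⟩ : ℕ) else
    r + (κ (qq x hx) * m + f (qq x hx) x)
  have a1 : ∀ x (hx : x ∈ S), a x = s ⟨x, hx⟩ := fun x hx => by
    simp only [a, dif_pos hx]
  have a2 : ∀ x (hx : x ∉ S), a x = r + (κ (qq x hx) * m + f (qq x hx) x) := fun x hx => by
    simp only [a, dif_neg hx]
  have hlt : ∀ x (hx : x ∉ S), f (qq x hx) x < m := fun x hx => hf1 _ x rfl
  have c1 : ∀ x (hx : x ∈ S), cls r m (a x) = s ⟨x, hx⟩ := fun x hx => by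
    rw [a1 x hx]
    exact cls_lt (s ⟨x, hx⟩).2
  have c2 : ∀ x (hx : x ∉ S), cls r m (a x) = r + κ (qq x hx) := fun x hx => by
    rw [a2 x hx]
    exact cls_add (hlt x hx)
  have hc : ∀ x y, cls r m (a x) = cls r m (a y) ↔ e x = e y := by
    intro x y
    by_cases hx : x ∈ S
    · by_cases hy : y ∈ S
      · rw [c1 x hx, c1 y hy]
        constructor
        · intro h
          have := congrArg Subtype.val (s.injective (Fin.ext h))
          exact congrArg e this
        · intro h
          have : x = y := (hmem y).1 hy x h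
          subst this
          rfl
      · rw [c1 x hx, c2 y hy]
        constructor
        · intro h
          have := (s ⟨x, hx⟩).2
          omega
        · intro h
          have : y = x := (hmem x).1 hx y h.symm
          exact absurd (this ▸ hx) hy
    · by_cases hy : y ∈ S
      · rw [c2 x hx, c1 y hy]
        constructor
        · intro h
          have := (s ⟨y, hy⟩).2
          omega
        · intro h
          have : x = y := (hmem y).1 hy x h
          exact absurd (this ▸ hy) hx
      · rw [c2 x hx, c2 y hy]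
        constructor
        · intro h
          have := congrArg Subtype.val (κ.injective (Nat.add_left_cancel h))
          exact this
        · intro h
          have : qq x hx = qq y hy := Subtype.ext h
          rw [this]
  have hinj : Function.Injective a := by
    intro x y hxy
    have hexy : e x = e y := (hc x y).1 (by rw [hxy])
    by_cases hx : x ∈ S
    · exact ((hmem x).1 hx y hexy.symm).symm
    · by_cases hy : y ∈ S
      · exact (hmem y).1 hy x hexy
      · have hq : qq x hx = qq y hy := Subtype.ext hexy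
        rw [a2 x hx, a2 y hy, hq] at hxy
        exact hf2 (qq y hy) x y hexy rfl (by omega)
  have hsur : Function.Surjective a := by
    intro n
    by_cases hn : n < r
    · refine ⟨s.symm ⟨n, hn⟩, ?_⟩
      rw [a1 _ (s.symm ⟨n, hn⟩).2]
      simp
    · obtain ⟨y, hy, hy'⟩ := hf3 (κ.symm ((n - r) / m)) ((n - r) % m)
        (Nat.mod_lt _ (by omega))
      obtain ⟨x, hx, hxe⟩ := (κ.symm ((n - r) / m)).2
      have hyS : y ∉ S := by
        intro hyS
        have h1 : e x = e y := by rw [hxe, hy]
        have : x = y := (hmem y).1 hyS x h1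
        exact hx (this ▸ hyS)
      have hq : qq y hyS = κ.symm ((n - r) / m) := Subtype.ext hy
      refine ⟨y, ?_⟩
      rw [a2 y hyS, hq, hy', Equiv.apply_symm_apply, mul_comm, Nat.div_add_mod]
      omega
  exact ⟨Equiv.ofBijective a ⟨hinj, hsur⟩, hc⟩

end Pool.Agent.L7h23.DU
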