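import Pool.Agent.L7h71.FP.Stm2
import Pool.Agent.Results.MP_5df2c5_lc.FiniteFlips

set_option autoImplicit false

/-!
Project DU, part SUP: the superposition of two structures on locally finite graphs.
-/

namespace Pool.Agent.L7h23.DU

open Set Filter MeasureTheory
open Pool.Agent.L7h71.FP
open Pool.Agent.L7h71.COV (Str Iso)
open Pool.Agent.Results.MP_5df2c5_lc.FiniteFlips (HasInfiniteCliqueSubdivision FlipSparse pair)

/-- a locally finite graph has no infinite clique subdivision -/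
theorem no_sub (S : SimpleGraph ℕ) (hS : ∀ p, {q | S.Adj p q}.Finite) :
    ¬ HasInfiniteCliqueSubdivision S := by
  rintro ⟨v, hv, P, hP1, hP2, hP3⟩
  have hadj : ∀ j, S.Adj (v 0) ((P 0 (j + 1)).getVert 1) := by
    intro j
    have hn : ¬ (P 0 (j + 1)).Nil := by
      intro h
      have h1 := h.eq
      have h2 := hv h1
      omega
    exact SimpleGraph.Walk.adj_snd hn
  haveI : Finite {q | S.Adj (v 0) q} := hS (v 0)
  obtain ⟨j, l, hjl, he⟩ := Finite.exists_ne_map_eq_of_infinite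
    (fun j : ℕ => (⟨(P 0 (j + 1)).getVert 1, hadj j⟩ : {q | S.Adj (v 0) q}))
  have he' : (P 0 (j + 1)).getVert 1 = (P 0 (l + 1)).getVert 1 := congrArg Subtype.val he
  have h1 : (P 0 (j + 1)).getVert 1 ∈ (P 0 (j + 1)).support :=
    SimpleGraph.Walk.getVert_mem_support _ _
  have h2 : (P 0 (j + 1)).getVert 1 ∈ (P 0 (l + 1)).support := by
    rw [he']
    exact SimpleGraph.Walk.getVert_mem_support _ _
  obtain ⟨k, hk⟩ := hP3 0 (j + 1) 0 (l + 1) (by omega) (by omega)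
    (by intro h; have := (Prod.ext_iff.1 h).2; simp only at this; omega) _ h1 h2
  rw [hk] at h1 h2
  have h3 := hP2 0 (j + 1) k (by omega) h1
  have h4 := hP2 0 (l + 1) k (by omega) h2
  have h5 : k ≠ 0 := by
    rintro rfl
    have := hadj j
    rw [hk] at this
    exact S.loopless.irrefl _ this
  omega

variable {a : ℕ → ℕ}

open Classical in
/-- the superposition -/
noncomputable def wst (I : Set ℕ) (z : Str a) (ρ τ : Equiv.Perm ℕ) : Str a := fun i v =>
  if i ∈ I then z i (⇑ρ⁻¹ ∘ v) else z i (⇑τ⁻¹ ∘ v)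

theorem wst_in {I : Set ℕ} {z : Str a} {ρ τ : Equiv.Perm ℕ} {i : ℕ} (hi : i ∈ I)
    (v : Fin (a i) → ℕ) : wst I z ρ τ i v = z i (⇑ρ⁻¹ ∘ v) := if_pos hi

theorem wst_out {I : Set ℕ} {z : Str a} {ρ τ : Equiv.Perm ℕ} {i : ℕ} (hi : i ∈ Iᶜ)
    (v : Fin (a i) → ℕ) : wst I z ρ τ i v = z i (⇑τ⁻¹ ∘ v) := if_neg hi

theorem pres_inv {I : Set ℕ} {x y : Str a} {σ : Equiv.Perm ℕ} (h : PresI I x y σ) {i : ℕ}
    (hi : i ∈ I) (v : Fin (a i) → ℕ) : y i v = x i (⇑σ⁻¹ ∘ v) := by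
  rw [← h i hi]
  congr 1
  funext j
  simp

theorem pres_in (I : Set ℕ) (z : Str a) (ρ τ : Equiv.Perm ℕ) : PresI I z (wst I z ρ τ) ρ := by
  intro i hi v
  rw [wst_in hi]
  congr 1
  funext j
  simp

theorem pres_out (I : Set ℕ) (z : Str a) (ρ τ : Equiv.Perm ℕ) : PresI Iᶜ z (wst I z ρ τ) τ := by
  intro i hi v
  rw [wst_out hi]
  congr 1
  funext j
  simp

theorem pair_zero {n : ℕ} (h : 0 < n) (u v : ℕ) : (pair u v : Fin n → ℕ) ⟨0, h⟩ = u := by
  simp [pair]

theorem pair_one {n : ℕ} (h : 1 < n) (u v : ℕ) : (pair u v : Fin n → ℕ) ⟨1, h⟩ = v := by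
  simp [pair]

/-- the members of the class are sparse -/
theorem sparse {I : Set ℕ} {z w : Str a} (h1 : LocI I z) (h2 : LocI Iᶜ z) {ρ τ : Equiv.Perm ℕ}
    (hρ : PresI I z w ρ) (hτ : PresI Iᶜ z w τ) : FlipSparse w := by
  obtain ⟨S1, hS1, hS1'⟩ := h1
  obtain ⟨S2, hS2, hS2'⟩ := h2
  let S : SimpleGraph ℕ :=
    { Adj := fun p q => S1.Adj (ρ⁻¹ p) (ρ⁻¹ q) ∨ S2.Adj (τ⁻¹ p) (τ⁻¹ q)
      symm := ⟨fun p q h => h.elim (fun h => Or.inl (SimpleGraph.Adj.symm h))
        (fun h => Or.inr (SimpleGraph.Adj.symm h))⟩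
      loopless := ⟨fun p h => h.elim (S1.loopless.irrefl _) (S2.loopless.irrefl _)⟩ }
  have hlf : ∀ p, {q | S.Adj p q}.Finite := by
    intro p
    refine (((hS1 (ρ⁻¹ p)).image ρ).union ((hS2 (τ⁻¹ p)).image τ)).subset ?_
    rintro q (hq | hq)
    · exact Or.inl ⟨ρ⁻¹ q, hq, by simp⟩
    · exact Or.inr ⟨τ⁻¹ q, hq, by simp⟩
  have key : ∀ i t, w i t = true → ∀ j l, t j = t l ∨ S.Adj (t j) (t l) := by
    intro i t ht j l
    by_cases hi : i ∈ I
    · rw [pres_inv hρ hi] at ht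
      rcases hS1' i hi _ ht j l with h | h
      · exact Or.inl (ρ⁻¹.injective h)
      · exact Or.inr (Or.inl h)
    · rw [pres_inv hτ hi] at ht
      rcases hS2' i hi _ ht j l with h | h
      · exact Or.inl (τ⁻¹.injective h)
      · exact Or.inr (Or.inr h)
  refine ⟨S, 1, fun _ => 0, fun _ _ _ => false, no_sub S hlf, ?_, fun i _ t ht => key i t ht⟩
  intro i hi u v huv hadj
  rw [← Bool.not_eq_true]
  intro h
  rcases key i _ h ⟨0, by omega⟩ ⟨1, by omega⟩ with h3 | h3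
  · rw [pair_zero, pair_one] at h3
    exact huv h3
  · rw [pair_zero, pair_one] at h3
    exact hadj h3

theorem ev_cont {X α β : Type*} [TopologicalSpace X] [TopologicalSpace α] [DiscreteTopology α]
    [TopologicalSpace β] {f : X → α → β} (hf : Continuous f) {g : X → α} (hg : Continuous g) :
    Continuous fun x => f x (g x) := by
  refine continuous_iff_continuousAt.2 fun x0 => ?_
  have h1 : ContinuousAt (fun x => f x (g x0)) x0 :=
    ((continuous_apply (g x0)).comp hf).continuousAt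
  refine h1.congr ?_
  have h2 : ∀ᶠ x in nhds x0, g x = g x0 :=
    hg.continuousAt.eventually ((isOpen_discrete {g x0}).mem_nhds rfl)
  filter_upwards [h2] with x hx
  rw [hx]

/-- the space of the codes -/
abbrev XX : Type := (ℕ → Bool) × ((ℕ → ℕ) × (ℕ → ℕ)) × ((ℕ → ℕ) × (ℕ → ℕ))

instance : BorelSpace (((ℕ → ℕ) × (ℕ → ℕ)) × ((ℕ → ℕ) × (ℕ → ℕ))) := Prod.borelSpace

instance : BorelSpace XX := Prod.borelSpace

/-- the codes of the members of the family with the permutations -/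
def YY (I : Set ℕ) (z : Str a) (g : (ℕ → Bool) → Str a) : Set XX :=
  {x | ((∀ n, x.2.1.1 (x.2.1.2 n) = n) ∧ ∀ n, x.2.1.2 (x.2.1.1 n) = n) ∧
    ((∀ n, x.2.2.1 (x.2.2.2 n) = n) ∧ ∀ n, x.2.2.2 (x.2.2.1 n) = n) ∧
    (∀ i ∈ I, ∀ v : Fin (a i) → ℕ, g x.1 i (x.2.1.1 ∘ v) = z i v) ∧
    ∀ i ∈ Iᶜ, ∀ v : Fin (a i) → ℕ, g x.1 i (x.2.2.1 ∘ v) = z i v}

theorem comp_cont {X : Type*} [TopologicalSpace X] {n : ℕ} {f : X → ℕ → ℕ} (hf : Continuous f)
    (v : Fin n → ℕ) : Continuous fun x => f x ∘ v :=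
  continuous_pi fun j => (continuous_apply (v j)).comp hf

theorem YY_closed (I : Set ℕ) (z : Str a) {g : (ℕ → Bool) → Str a} (hg : Continuous g) :
    IsClosed (YY I z g) := by
  have c0 : Continuous fun x : XX => x.1 := continuous_fst
  have c1 : Continuous fun x : XX => x.2.1.1 := (continuous_fst.comp continuous_fst).comp
    continuous_snd
  have c2 : Continuous fun x : XX => x.2.1.2 := (continuous_snd.comp continuous_fst).comp
    continuous_snd
  have c3 : Continuous fun x : XX => x.2.2.1 := (continuous_fst.comp continuous_snd).comp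
    continuous_snd
  have c4 : Continuous fun x : XX => x.2.2.2 := (continuous_snd.comp continuous_snd).comp
    continuous_snd
  have hgi : ∀ i, Continuous fun x : XX => g x.1 i := fun i =>
    (continuous_apply i).comp (hg.comp c0)
  have e1 : ∀ n : ℕ, IsClosed {x : XX | x.2.1.1 (x.2.1.2 n) = n} := fun n =>
    isClosed_eq (ev_cont c1 ((continuous_apply n).comp c2)) continuous_const
  have e2 : ∀ n : ℕ, IsClosed {x : XX | x.2.1.2 (x.2.1.1 n) = n} := fun n =>
    isClosed_eq (ev_cont c2 ((continuous_apply n).comp c1)) continuous_const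
  have e3 : ∀ n : ℕ, IsClosed {x : XX | x.2.2.1 (x.2.2.2 n) = n} := fun n =>
    isClosed_eq (ev_cont c3 ((continuous_apply n).comp c4)) continuous_const
  have e4 : ∀ n : ℕ, IsClosed {x : XX | x.2.2.2 (x.2.2.1 n) = n} := fun n =>
    isClosed_eq (ev_cont c4 ((continuous_apply n).comp c3)) continuous_const
  have e5 : ∀ i (v : Fin (a i) → ℕ), IsClosed {x : XX | g x.1 i (x.2.1.1 ∘ v) = z i v} :=
    fun i v => isClosed_eq (ev_cont (hgi i) (comp_cont c1 v)) continuous_const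
  have e6 : ∀ i (v : Fin (a i) → ℕ), IsClosed {x : XX | g x.1 i (x.2.2.1 ∘ v) = z i v} :=
    fun i v => isClosed_eq (ev_cont (hgi i) (comp_cont c3 v)) continuous_const
  have hh : YY I z g = ((⋂ n, {x : XX | x.2.1.1 (x.2.1.2 n) = n}) ∩
      ⋂ n, {x : XX | x.2.1.2 (x.2.1.1 n) = n}) ∩
      (((⋂ n, {x : XX | x.2.2.1 (x.2.2.2 n) = n}) ∩
      ⋂ n, {x : XX | x.2.2.2 (x.2.2.1 n) = n}) ∩
      ((⋂ i ∈ I, ⋂ v : Fin (a i) → ℕ, {x : XX | g x.1 i (x.2.1.1 ∘ v) = z i v}) ∩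
      ⋂ i ∈ Iᶜ, ⋂ v : Fin (a i) → ℕ, {x : XX | g x.1 i (x.2.2.1 ∘ v) = z i v})) := by
    ext x
    simp only [YY, mem_ofPred_eq, mem_inter_iff, mem_iInter]
  rw [hh]
  exact ((isClosed_iInter e1).inter (isClosed_iInter e2)).inter
    (((isClosed_iInter e3).inter (isClosed_iInter e4)).inter
      ((isClosed_biInter fun i _ => isClosed_iInter (e5 i)).inter
        (isClosed_biInter fun i _ => isClosed_iInter (e6 i))))

theorem s_sup : S_THY → S_SUP := by
  classical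
  intro hthy a I z hL1 hL2 hO1 hO2
  obtain ⟨J, hJm, hJi, hJo⟩ := hthy a I
  obtain ⟨J', hJm', hJi', hJo'⟩ := hthy a Iᶜ
  let W : Set (Str a) := {w | J w = J z ∧ J' w = J' z}
  have hWm : MeasurableSet W :=
    (hJm (measurableSet_singleton (J z))).inter (hJm' (measurableSet_singleton (J' z)))
  have hWi : ∀ x y, Pool.Agent.Results.MP_5df2c5_lc.FiniteFlips.Iso x y → (x ∈ W ↔ y ∈ W) := by
    rintro x y ⟨σ, hσ⟩
    have h1 : J x = J y := hJi x y σ fun i _ v => hσ i v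
    have h2 : J' x = J' y := hJi' x y σ fun i _ v => hσ i v
    show (J x = J z ∧ J' x = J' z) ↔ (J y = J z ∧ J' y = J' z)
    rw [h1, h2]
  have hWex : ∀ w ∈ W, ∃ ρ τ, PresI I z w ρ ∧ PresI Iᶜ z w τ := by
    rintro w ⟨hw1, hw2⟩
    obtain ⟨ρ, hρ⟩ := hJo z w hO1 hw1.symm
    obtain ⟨τ, hτ⟩ := hJo' z w hO2 hw2.symm
    exact ⟨ρ, τ, hρ, hτ⟩
  have hWs : ∀ w ∈ W, FlipSparse w := by
    intro w hw
    obtain ⟨ρ, τ, hρ, hτ⟩ := hWex w hw
    exact sparse hL1 hL2 hρ hτ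
  have hWw : ∀ ρ τ, wst I z ρ τ ∈ W := fun ρ τ =>
    ⟨(hJi z _ ρ (pres_in I z ρ τ)).symm, (hJi' z _ τ (pres_out I z ρ τ)).symm⟩
  rcases (Pool.Agent.Results.MP_5df2c5_lc.FiniteFlips.result a _
    (Pool.Agent.Results.MP_5df2c5_lc.FiniteFlips.Tame.flip a)).2 W hWm hWi hWs with
    ⟨f, hf⟩ | ⟨g, hg1, hg2, hg3⟩
  · left
    have h1 : ∀ n, ∃ σn : Equiv.Perm ℕ, (∃ σ : Equiv.Perm ℕ,
        Pool.Agent.Results.MP_5df2c5_lc.FiniteFlips.Iso (f n) (wst I z 1 σ)) →
        Pool.Agent.Results.MP_5df2c5_lc.FiniteFlips.Iso (f n) (wst I z 1 σn) := by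
      intro n
      by_cases h : ∃ σ : Equiv.Perm ℕ,
        Pool.Agent.Results.MP_5df2c5_lc.FiniteFlips.Iso (f n) (wst I z 1 σ)
      · obtain ⟨σ, hσ⟩ := h
        exact ⟨σ, fun _ => hσ⟩
      · exact ⟨1, fun h' => absurd h' h⟩
    choose s hs using h1
    refine ⟨s, fun σ => ?_⟩
    obtain ⟨n, hn⟩ := hf _ (hWw 1 σ)
    have hn' := hs n ⟨σ, hn⟩
    obtain ⟨α, hα⟩ := hn
    obtain ⟨β, hβ⟩ := hn'
    -- the isomorphism between the two superpositions
    have hiso : ∀ i (v : Fin (a i) → ℕ), wst I z 1 σ i (⇑(α * β⁻¹) ∘ v) = wst I z 1 (s n) i v := by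
      intro i v
      have e1 : ⇑(α * β⁻¹) ∘ v = ⇑α ∘ (⇑β⁻¹ ∘ v) := rfl
      rw [e1, hα i, ← hβ i]
      congr 1
      funext j
      simp
    refine ⟨n, α * β⁻¹, ?_, (σ⁻¹ * (α * β⁻¹) * s n)⁻¹, ?_, ?_⟩
    · rw [mem_GrI]
      intro i hi v
      have h := hiso i v
      rw [wst_in hi, wst_in hi] at h
      exact h
    · refine Subgroup.inv_mem _ ?_
      rw [mem_GrI]
      intro i hi v
      have h := hiso i (⇑(s n) ∘ v)
      rw [wst_out hi, wst_out hi] at h
      have e1 : ⇑(σ⁻¹ * (α * β⁻¹) * s n) ∘ v = ⇑σ⁻¹ ∘ ⇑(α * β⁻¹) ∘ ⇑(s n) ∘ v := rfl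
      have e2 : ⇑(s n)⁻¹ ∘ ⇑(s n) ∘ v = v := by
        funext j
        simp
      rw [e1, h, e2]
    · group
  · right
    haveI : StandardBorelSpace (YY I z g) := (YY_closed I z hg1).measurableSet.standardBorel
    obtain ⟨h, hh1, hh2⟩ := Pool.Agent.H565R2.FO2.perfect_of_uncountable (Y := YY I z g)
      (X := XX) (Z := ℕ → Bool) (ι := Unit) Subtype.val measurable_subtype_coe
      (fun _ y => y.1.1) (fun _ => measurable_fst.comp measurable_subtype_coe)
      (fun y y' => y.1.1 = y'.1.1) (fun y y' hy _ => ⟨(), hy⟩) (by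
        intro hc
        apply Pool.Agent.L7h71.CC.not_countable_cantor
        refine hc.mono ?_
        intro c _
        obtain ⟨ρ, τ, hρ, hτ⟩ := hWex _ (hg2 c)
        refine mem_iUnion.2 ⟨(), ⟨(c, (⇑ρ, ⇑ρ⁻¹), (⇑τ, ⇑τ⁻¹)), ?_⟩, rfl⟩
        exact ⟨⟨fun n => by simp, fun n => by simp⟩, ⟨fun n => by simp, fun n => by simp⟩, hρ, hτ⟩)
    let P : YY I z g → Equiv.Perm ℕ := fun y =>
      { toFun := y.1.2.1.1
        invFun := y.1.2.1.2
        left_inv := y.2.1.2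
        right_inv := y.2.1.1 }
    let T : YY I z g → Equiv.Perm ℕ := fun y =>
      { toFun := y.1.2.2.1
        invFun := y.1.2.2.2
        left_inv := y.2.2.1.2
        right_inv := y.2.2.1.1 }
    have hP : ∀ y : YY I z g, PresI I z (g y.1.1) (P y) := fun y => y.2.2.2.1
    have hT : ∀ y : YY I z g, PresI Iᶜ z (g y.1.1) (T y) := fun y => y.2.2.2.2
    have c1 : Continuous fun b => (h b).1.2.1.1 := (continuous_fst.comp continuous_fst).comp
      (continuous_snd.comp hh1)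
    have c2 : Continuous fun b => (h b).1.2.1.2 := (continuous_snd.comp continuous_fst).comp
      (continuous_snd.comp hh1)
    have c3 : Continuous fun b => (h b).1.2.2.1 := (continuous_fst.comp continuous_snd).comp
      (continuous_snd.comp hh1)
    have c4 : Continuous fun b => (h b).1.2.2.2 := (continuous_snd.comp continuous_snd).comp
      (continuous_snd.comp hh1)
    refine ⟨fun b => (P (h b))⁻¹ * T (h b), ⟨?_, ?_⟩, ?_⟩
    · refine continuous_pi fun n => ?_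
      exact ev_cont c2 ((continuous_apply n).comp c3)
    · refine continuous_pi fun n => ?_
      have e : (fun b => ((P (h b))⁻¹ * T (h b))⁻¹ n) = fun b => (h b).1.2.2.2 ((h b).1.2.1.1 n) := by
        funext b
        rw [mul_inv_rev, inv_inv]
        rfl
      rw [e]
      exact ev_cont c4 ((continuous_apply n).comp c1)
    · rintro c d ⟨u, hu, k, hk, hd⟩
      by_contra hcd
      apply hh2 c d hcd
      apply hg3
      refine ⟨P (h d) * u * (P (h c))⁻¹, ?_⟩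
      intro i v
      by_cases hi : i ∈ I
      · rw [pres_inv (hP (h d)) hi, pres_inv (hP (h c)) hi]
        have e1 : ⇑(P (h d))⁻¹ ∘ ⇑(P (h d) * u * (P (h c))⁻¹) ∘ v = ⇑u ∘ (⇑(P (h c))⁻¹ ∘ v) := by
          funext j
          simp
        rw [e1]
        exact hu i hi _
      · rw [pres_inv (hT (h d)) hi, pres_inv (hT (h c)) hi]
        have e2 : (T (h d))⁻¹ * (P (h d) * u * (P (h c))⁻¹) = k⁻¹ * (T (h c))⁻¹ := by
          have hd' : (P (h d))⁻¹ * T (h d) = u * ((P (h c))⁻¹ * T (h c)) * k := hd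
          have hd2 : T (h d) = P (h d) * (u * ((P (h c))⁻¹ * T (h c)) * k) := by
            rw [← hd']
            group
          rw [hd2]
          group
        have e1 : ⇑(T (h d))⁻¹ ∘ ⇑(P (h d) * u * (P (h c))⁻¹) ∘ v =
            ⇑k⁻¹ ∘ (⇑(T (h c))⁻¹ ∘ v) := by
          have := congrArg (fun q : Equiv.Perm ℕ => ⇑q ∘ v) e2
          exact this
        rw [e1]
        exact (GrI Iᶜ z).inv_mem hk i hi _

end Pool.Agent.L7h23.DU
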